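import Pool.Agent.H92.RamseyG
import Pool.Agent.H34.RM.Defs

/-!
Root layer of the two books project (MP_28724c_co), independent of the certificate format.
-/

open Finset

namespace Pool.Agent.H98.RM

open Pool.Agent.H92 Pool.Agent.H34.RM

/-- Conclusion of the three set theorem for fixed parameters. -/
def Conc3 (a b c q p L M : ℝ) : Prop :=
  ∀ η : ℝ, 0 < η → ∃ C1 : ℝ, 0 ≤ C1 ∧
    ∀ (V : Type) [DecidableEq V] (G : SimpleGraph V) [DecidableRel G.Adj]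
      (X Y Z : Finset V) (N k l : ℕ) (E E' : ℝ),
      X.Nonempty → Y.Nonempty → Z.Nonempty → X.card ≤ N → Y.card ≤ N → Z.card ≤ N →
      NoR G k (X ∪ Y) → NoB G l (X ∪ Z) →
      (∀ j ≤ k, ∀ Y' ⊆ Y, NoR G j Y' → (Y'.card : ℝ) ≤ E * Real.exp (j * (L / b))) →
      (∀ j ≤ l, ∀ Z' ⊆ Z, NoB G j Z' → (Z'.card : ℝ) ≤ E' * Real.exp (j * (M / c))) →
      (∀ x ∈ X, (q + η) * Y.card ≤ ∑ y ∈ Y, rI G x y) →
      (∀ x ∈ X, (p + η) * Z.card ≤ ∑ z ∈ Z, bI G x z) →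
      a * Real.log X.card + b * Real.log Y.card + c * Real.log Z.card
        ≤ C1 * (1 + Real.sqrt (Real.log N)) + b * Real.log E + c * Real.log E' + k * L + l * M

/-- The three set theorem for the certificate predicate `P3 a b c q p L M`. -/
def T3P (P3 : ℝ → ℝ → ℝ → ℝ → ℝ → ℝ → ℝ → Prop) : Prop :=
  ∀ a b c q p L M : ℝ, P3 a b c q p L M → Conc3 a b c q p L M

/-- Three set step for the line `(u0, v0)` relative to the family `(u m, v m)`, for the vertices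
whose red degree is in the open interval `(q, 1 - p)`. -/
def Step3 {ι : Type} [Fintype ι] (u v : ι → ℝ) (u0 v0 q p : ℝ) : Prop :=
  ∃ (a b c L M u' v' : ℝ) (w w' s : ι → ℝ),
    0 < a ∧ 0 < b ∧ 0 < c ∧ 0 ≤ L ∧ 0 ≤ M ∧ Conc3 a b c q p L M ∧
    (∀ m, 0 ≤ w m) ∧ ∑ m, w m = 1 ∧ b * ∑ m, w m * u m ≤ L ∧ ∑ m, w m * v m ≤ v' ∧
    (∀ m, 0 ≤ w' m) ∧ ∑ m, w' m = 1 ∧ c * ∑ m, w' m * v m ≤ M ∧ ∑ m, w' m * u m ≤ u' ∧
    (∀ m, 0 ≤ s m) ∧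
    L + c * u' + ∑ m, s m * u m ≤ (a + b + c + ∑ m, s m) * u0 ∧
    M + b * v' + ∑ m, s m * v m ≤ (a + b + c + ∑ m, s m) * v0

/-- The intervals `(z.1, 1 - z.2)`, `z` in the list, cover `[lo, hi]`. -/
def Covers (cs : List (ℝ × ℝ)) (lo hi : ℝ) : Prop :=
  ∀ d : ℝ, lo ≤ d → d ≤ hi → ∃ z ∈ cs, z.1 < d ∧ d < 1 - z.2

/-- A chain of cells, for the checkers: `q_0 < lo`, `q_(j+1) < 1 - p_j`, `hi < 1 - p_last`. -/
def Chain : List (ℝ × ℝ) → ℝ → ℝ → Prop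
  | [], lo, hi => hi < lo
  | z :: t, lo, hi => z.1 < lo ∧ Chain t (1 - z.2) hi

/-- STATEMENT of the bootstrap theorem with three set steps. `P` is the predicate of the two set
theorem, `q = qr` for the vertices of red degree above `qr` and mirrored for `qb`. -/
def Bootstrap3 (P : ℝ → ℝ → ℝ → ℝ → Prop) : Prop :=
  ∀ (ι : Type) [Fintype ι] (u v : ι → ℝ), (∀ i, 0 ≤ u i) → (∀ i, 0 ≤ v i) →
    (∀ i, Real.exp (-u i) + Real.exp (-v i) ≤ 1 ∨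
      ∃ (qr qb : ℝ) (cs : List (ℝ × ℝ)), Covers cs (1 - qb) qr ∧
        (∀ z ∈ cs, Step3 u v (u i) (v i) z.1 z.2) ∧
        (Real.exp (-u i) ≤ qr ∨ StepCP P u v (u i) (v i) qr) ∧
        (Real.exp (-v i) ≤ qb ∨ StepCP P v u (v i) (u i) qb)) →
    ∀ i, Good (u i) (v i)

/-- Three set cell of the diagonal step. -/
def DCell3 (c0 q p : ℝ) : Prop :=
  ∃ a b c L M u' v' : ℝ, 0 < a ∧ 0 < b ∧ 0 < c ∧ 0 ≤ L ∧ 0 ≤ M ∧ Conc3 a b c q p L M ∧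
    Good (L / b) v' ∧ Good u' (M / c) ∧ L + M + b * v' + c * u' ≤ (a + b + c) * c0

/-- Two set cell of the diagonal step. -/
def DCell2 (P : ℝ → ℝ → ℝ → ℝ → Prop) (c0 q : ℝ) : Prop :=
  ∃ a L M v' : ℝ, 0 < a ∧ a ≤ 1 ∧ 0 < q ∧ q < 1 ∧ 0 ≤ L ∧ 0 ≤ M ∧ P a q L M ∧
    Good L v' ∧ L + M + v' ≤ (1 + a) * c0

/-- STATEMENT of the diagonal step: cells covering `[1/2, qr]`, and a two set step at `qr`. -/
def DiagStep3 (P : ℝ → ℝ → ℝ → ℝ → Prop) : Prop :=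
  ∀ (c0 qr : ℝ) (cs : List (ℝ × ℝ)), DCell2 P c0 qr → (∀ z ∈ cs, DCell3 c0 z.1 z.2) →
    Covers cs (1 / 2) qr → GoodDiag c0

end Pool.Agent.H98.RM
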