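import Pool.Agent.H98.RM.Boot

/-!
The diagonal step with three set cells.
-/

open Finset

namespace Pool.Agent.H98.RM

open Pool.Agent.H92 Pool.Agent.H92.D Pool.Agent.H34.RM

/-- final numerics -/
lemma log_from {A C1 ε c0 K : ℝ} (hA : 0 < A) (hC1 : 0 ≤ C1) (hε : 0 < ε) (hK : 0 ≤ K) :
    ∃ K2 : ℝ, 0 ≤ K2 ∧ ∀ (y : ℝ) (k : ℕ), 0 ≤ y → y ≤ 2 * k * Real.log 2 →
      A * y ≤ C1 * (1 + Real.sqrt y) + K + A * ε / 2 * k + A * c0 * k → y ≤ K2 + (c0 + ε) * k := by
  have hlog2 : 0 < Real.log 2 := Real.log_pos (by norm_num)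
  set δ : ℝ := A * ε / (4 * (C1 + 1) * Real.log 2) with hδ
  have hδ0 : 0 < δ := by positivity
  refine ⟨(C1 * (1 + 1 / (4 * δ)) + K) / A, by positivity, ?_⟩
  intro y k hy0 hy h
  have h1 := sqrt_le_lin hy0 hδ0
  have h2 : δ * y ≤ δ * (2 * k * Real.log 2) := mul_le_mul_of_nonneg_left hy hδ0.le
  have h3 : C1 * Real.sqrt y ≤ C1 * (δ * (2 * k * Real.log 2) + 1 / (4 * δ)) := by
    apply mul_le_mul_of_nonneg_left _ hC1; linarith
  have h4 : C1 * (δ * (2 * k * Real.log 2)) = A * ε / 2 * k * (C1 / (C1 + 1)) := by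
    rw [hδ]; field_simp; ring
  have h5 : C1 / (C1 + 1) ≤ 1 := by
    rw [div_le_one (by linarith)]; linarith
  have h6 : A * ε / 2 * k * (C1 / (C1 + 1)) ≤ A * ε / 2 * k * 1 := by
    apply mul_le_mul_of_nonneg_left h5; positivity
  have h7 : A * y ≤ (C1 * (1 + 1 / (4 * δ)) + K) + A * ((c0 + ε) * k) := by
    have : A * ((c0 + ε) * k) = A * c0 * k + A * ε / 2 * k + A * ε / 2 * k := by ring
    rw [this]
    linarith
  have h8 : (C1 * (1 + 1 / (4 * δ)) + K) = A * ((C1 * (1 + 1 / (4 * δ)) + K) / A) := by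
    field_simp
  rw [h8, ← mul_add] at h7
  exact le_of_mul_le_mul_left h7 hA

/-- crude bound -/
lemma crude {V : Type} [DecidableEq V] (G : SimpleGraph V) [DecidableRel G.Adj] {X : Finset V}
    {k : ℕ} (hX : X.Nonempty) (hR : NoR G k X) (hB : NoB G k X) :
    Real.log X.card ≤ 2 * k * Real.log 2 := by
  have hlog2 : 0 < Real.log 2 := Real.log_pos (by norm_num)
  have hXpos : (0 : ℝ) < X.card := by exact_mod_cast hX.card_pos
  have hesb : (X.card : ℝ) + 1 ≤ Real.exp (k * Real.log 2 + k * Real.log 2) := by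
    refine es_bound hlog2.le hlog2.le ?_ G (k + k) k k X rfl hR hB
    rw [Real.exp_neg, Real.exp_log (by norm_num)]; norm_num
  have h1 := Real.log_le_log hXpos (by linarith : (X.card : ℝ)
    ≤ Real.exp (k * Real.log 2 + k * Real.log 2))
  rw [Real.log_exp] at h1
  linarith

/-- A three set cell bounds the logarithm of the size. -/
lemma diag_cell3 {c0 q p η ε κ : ℝ} (hc0 : 0 ≤ c0) (hη : 0 < η) (hε : 0 < ε) (hκ : 0 < κ)
    (h : DCell3 c0 q p) :
    ∃ K2 : ℝ, 0 ≤ K2 ∧ ∀ (V : Type) [DecidableEq V] (G : SimpleGraph V) [DecidableRel G.Adj]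
      (X X' : Finset V) (k : ℕ), X.Nonempty → NoR G k X → NoB G k X → X' ⊆ X →
      κ * X.card ≤ X'.card →
      (∀ x ∈ X', (q + η) * X.card ≤ ∑ y ∈ X, rI G x y) →
      (∀ x ∈ X', (p + η) * X.card ≤ ∑ y ∈ X, bI G x y) →
      Real.log X.card ≤ K2 + (c0 + ε) * k := by
  obtain ⟨a, b, c, L, M, u', v', ha, hb, hc, hL, hM, hconc, hg, hg', hcost⟩ := h
  obtain ⟨C1, hC1, hT1⟩ := hconc η hη
  obtain ⟨C', hC', hG⟩ := hg (ε / 4) (by positivity)
  obtain ⟨C'', hC'', hG'⟩ := hg' (ε / 4) (by positivity)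
  obtain ⟨K2, hK2, hlog⟩ := log_from (A := a + b + c) (C1 := C1) (ε := ε) (c0 := c0)
    (K := b * |Real.log C'| + c * |Real.log C''| + a * |Real.log κ|)
    (by positivity) hC1 hε (by positivity)
  refine ⟨K2, hK2, ?_⟩
  intro V _ G _ X X' k hX hR hB hXX hκX hdR hdB
  have hXpos : (0 : ℝ) < X.card := by exact_mod_cast hX.card_pos
  have hX1 : (1 : ℝ) ≤ X.card := by exact_mod_cast hX.card_pos
  have hX'pos : (0 : ℝ) < X'.card := lt_of_lt_of_le (by positivity) hκX
  have hX'ne : X'.Nonempty := by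
    rw [← Finset.card_pos]; exact_mod_cast hX'pos
  apply hlog _ _ (Real.log_nonneg hX1) (crude G hX hR hB)
  have hU : X' ∪ X = X := Finset.union_eq_right.2 hXX
  have hk0 : (0 : ℝ) ≤ k := Nat.cast_nonneg k
  have hmain := hT1 V G X' X X X.card k k (C' * Real.exp (ε / 2 * k + k * v'))
      (C'' * Real.exp (ε / 2 * k + k * u')) hX'ne hX hX (card_le_card hXX) le_rfl le_rfl
      (by rwa [hU]) (by rwa [hU])
      (fun j hj Y' hY' hn => by
        have h1 := hG V G Y' j k hn (NoB_mono hB hY')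
        refine h1.trans ?_
        rw [mul_assoc, ← Real.exp_add]
        have hj' : (j : ℝ) ≤ k := by exact_mod_cast hj
        have : Real.exp (ε / 4 * (j + k) + j * (L / b) + k * v')
            ≤ Real.exp (ε / 2 * k + k * v' + j * (L / b)) := by
          apply Real.exp_le_exp.2
          nlinarith
        gcongr)
      (fun j hj Z' hZ' hn => by
        have h1 := hG' V G Z' k j (NoR_mono hR hZ') hn
        refine h1.trans ?_
        rw [mul_assoc, ← Real.exp_add]
        have hj' : (j : ℝ) ≤ k := by exact_mod_cast hj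
        have : Real.exp (ε / 4 * (k + j) + k * u' + j * (M / c))
            ≤ Real.exp (ε / 2 * k + k * u' + j * (M / c)) := by
          apply Real.exp_le_exp.2
          nlinarith
        gcongr) hdR hdB
  have hlogE : Real.log (C' * Real.exp (ε / 2 * k + k * v'))
      = Real.log C' + (ε / 2 * k + k * v') := by
    rw [Real.log_mul (by positivity) (by positivity), Real.log_exp]
  have hlogE' : Real.log (C'' * Real.exp (ε / 2 * k + k * u'))
      = Real.log C'' + (ε / 2 * k + k * u') := by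
    rw [Real.log_mul (by positivity) (by positivity), Real.log_exp]
  rw [hlogE, hlogE'] at hmain
  have h7 : Real.log κ + Real.log X.card ≤ Real.log X'.card := by
    rw [← Real.log_mul (by positivity) (by positivity)]
    exact Real.log_le_log (by positivity) hκX
  have h8 : a * (Real.log κ + Real.log X.card) ≤ a * Real.log X'.card :=
    mul_le_mul_of_nonneg_left h7 ha.le
  have h9 : -(a * |Real.log κ|) ≤ a * Real.log κ := by
    have := mul_le_mul_of_nonneg_left (neg_abs_le (Real.log κ)) ha.le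
    linarith
  have h10 : b * Real.log C' ≤ b * |Real.log C'| :=
    mul_le_mul_of_nonneg_left (le_abs_self _) hb.le
  have h11 : c * Real.log C'' ≤ c * |Real.log C''| :=
    mul_le_mul_of_nonneg_left (le_abs_self _) hc.le
  have h12 : (k : ℝ) * (L + M + b * v' + c * u') ≤ k * ((a + b + c) * c0) :=
    mul_le_mul_of_nonneg_left hcost hk0
  have h13 : (b + c) * (ε / 2 * k) ≤ (a + b + c) * (ε / 2 * k) := by
    apply mul_le_mul_of_nonneg_right _ (by positivity); linarith
  have e1 : b * (Real.log C' + (ε / 2 * k + k * v')) + c * (Real.log C'' + (ε / 2 * k + k * u'))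
      + k * L + k * M
      = b * Real.log C' + c * Real.log C'' + (b + c) * (ε / 2 * k)
        + k * (L + M + b * v' + c * u') := by ring
  have e2 : (a + b + c) * Real.log X.card
      = a * (Real.log κ + Real.log X.card) + b * Real.log X.card + c * Real.log X.card
        - a * Real.log κ := by ring
  have e3 : (a + b + c) * ε / 2 * k = (a + b + c) * (ε / 2 * k) := by ring
  have e4 : (a + b + c) * c0 * k = k * ((a + b + c) * c0) := by ring
  rw [e2, e3, e4]
  linarith

/-- A two set cell bounds the logarithm of the size. -/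
lemma diag_cell2 {P : ℝ → ℝ → ℝ → ℝ → Prop} (hT : T1P P) {c0 q η ε κ : ℝ} (hc0 : 0 ≤ c0)
    (hη : 0 < η) (hε : 0 < ε) (hκ : 0 < κ) (h : DCell2 P c0 q) :
    ∃ K2 : ℝ, 0 ≤ K2 ∧ ∀ (V : Type) [DecidableEq V] (G : SimpleGraph V) [DecidableRel G.Adj]
      (X X' : Finset V) (k : ℕ), X.Nonempty → NoR G k X → NoB G k X → X' ⊆ X →
      κ * X.card ≤ X'.card →
      (∀ x ∈ X', (q + η) * X.card ≤ ∑ y ∈ X, rI G x y) →
      Real.log X.card ≤ K2 + (c0 + ε) * k := by
  obtain ⟨a, L, M, v', ha, ha1, hq, hq1, hL, hM, hcert, hg, hcost⟩ := h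
  obtain ⟨C1, hC1, hT1⟩ := hT a q L M η ha ha1 hq hq1 hL hM hη hcert
  obtain ⟨C', hC', hG⟩ := hg (ε / 4) (by positivity)
  obtain ⟨K2, hK2, hlog⟩ := log_from (A := 1 + a) (C1 := C1) (ε := ε) (c0 := c0)
    (K := |Real.log C'| + a * |Real.log κ|)
    (by positivity) hC1 hε (by positivity)
  refine ⟨K2, hK2, ?_⟩
  intro V _ G _ X X' k hX hR hB hXX hκX hdR
  have hXpos : (0 : ℝ) < X.card := by exact_mod_cast hX.card_pos
  have hX1 : (1 : ℝ) ≤ X.card := by exact_mod_cast hX.card_pos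
  have hX'pos : (0 : ℝ) < X'.card := lt_of_lt_of_le (by positivity) hκX
  have hX'ne : X'.Nonempty := by
    rw [← Finset.card_pos]; exact_mod_cast hX'pos
  apply hlog _ _ (Real.log_nonneg hX1) (crude G hX hR hB)
  have hU : X' ∪ X = X := Finset.union_eq_right.2 hXX
  have hk0 : (0 : ℝ) ≤ k := Nat.cast_nonneg k
  have hsum : (q + η) * X'.card * X.card ≤ ∑ x ∈ X', ∑ y ∈ X, ind G x y := by
    have e1 : ∑ _x ∈ X', (q + η) * (X.card : ℝ) ≤ ∑ x ∈ X', ∑ y ∈ X, ind G x y :=
      Finset.sum_le_sum fun x hx => hdR x hx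
    rw [Finset.sum_const, nsmul_eq_mul] at e1
    linarith
  have hmain := hT1 V G X' X X.card k k (C' * Real.exp (ε / 2 * k + k * v'))
      hX'ne hX (card_le_card hXX) le_rfl (by rwa [hU]) (NoB_mono hB hXX)
      (fun j hj Y' hY' hn => by
        have h1 := hG V G Y' j k hn (NoB_mono hB hY')
        refine h1.trans ?_
        rw [mul_assoc, ← Real.exp_add]
        have hj' : (j : ℝ) ≤ k := by exact_mod_cast hj
        have : Real.exp (ε / 4 * (j + k) + j * L + k * v')
            ≤ Real.exp (ε / 2 * k + k * v' + j * L) := by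
          apply Real.exp_le_exp.2
          nlinarith
        gcongr) hsum
  have hlogE : Real.log (C' * Real.exp (ε / 2 * k + k * v'))
      = Real.log C' + (ε / 2 * k + k * v') := by
    rw [Real.log_mul (by positivity) (by positivity), Real.log_exp]
  rw [hlogE] at hmain
  have h7 : Real.log κ + Real.log X.card ≤ Real.log X'.card := by
    rw [← Real.log_mul (by positivity) (by positivity)]
    exact Real.log_le_log (by positivity) hκX
  have h8 : a * (Real.log κ + Real.log X.card) ≤ a * Real.log X'.card :=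
    mul_le_mul_of_nonneg_left h7 ha.le
  have h9 : -(a * |Real.log κ|) ≤ a * Real.log κ := by
    have := mul_le_mul_of_nonneg_left (neg_abs_le (Real.log κ)) ha.le
    linarith
  have h10 : Real.log C' ≤ |Real.log C'| := le_abs_self _
  have h12 : (k : ℝ) * (L + M + v') ≤ k * ((1 + a) * c0) :=
    mul_le_mul_of_nonneg_left hcost hk0
  have h13 : 1 * (ε / 2 * k) ≤ (1 + a) * (ε / 2 * k) := by
    apply mul_le_mul_of_nonneg_right _ (by positivity); linarith
  have e2 : (1 + a) * Real.log X.card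
      = a * (Real.log κ + Real.log X.card) + Real.log X.card
        - a * Real.log κ := by ring
  have e3 : (1 + a) * ε / 2 * k = (1 + a) * (ε / 2 * k) := by ring
  have e4 : (1 + a) * c0 * k = k * ((1 + a) * c0) := by ring
  rw [e2, e3, e4]
  linarith

/-- the statement for a graph in which half of the vertices have large red degree -/
lemma diag_half3 {P : ℝ → ℝ → ℝ → ℝ → Prop} (hT : T1P P) {c0 qr ε : ℝ} (hc0 : 0 ≤ c0)
    (hε : 0 < ε) {cs : List (ℝ × ℝ)} (h2 : DCell2 P c0 qr)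
    (h3 : ∀ z ∈ cs, DCell3 c0 z.1 z.2) (hcov : Covers cs (1 / 2) qr) :
    ∃ K2 : ℝ, 0 ≤ K2 ∧ ∀ (V : Type) [DecidableEq V] (G : SimpleGraph V) [DecidableRel G.Adj]
      (X X1 : Finset V) (k : ℕ), NoR G k X → NoB G k X → X1 ⊆ X →
      K2 ≤ X.card → (1 / 2) * (X.card : ℝ) ≤ X1.card →
      (∀ x ∈ X1, ∑ y ∈ X, bI G x y ≤ ∑ y ∈ X, rI G x y) →
      Real.log X.card ≤ K2 + (c0 + ε) * k := by
  classical
  obtain ⟨η, hη, hcov⟩ := cover_eta hcov
  have hη2 : 0 < η / 2 := by linarith
  set κ : ℝ := 1 / ((cs.length : ℝ) + 2) * (1 / 2) with hκ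
  have hκ0 : 0 < κ := by positivity
  obtain ⟨K1, hK1, H1⟩ := diag_cell2 hT hc0 hη2 hε hκ0 h2
  obtain ⟨K3, H3⟩ := exists_common cs
    (fun z K => ∀ (V : Type) [DecidableEq V] (G : SimpleGraph V) [DecidableRel G.Adj]
      (X X' : Finset V) (k : ℕ), X.Nonempty → NoR G k X → NoB G k X → X' ⊆ X →
      κ * X.card ≤ X'.card →
      (∀ x ∈ X', (z.1 + η / 2) * X.card ≤ ∑ y ∈ X, rI G x y) →
      (∀ x ∈ X', (z.2 + η / 2) * X.card ≤ ∑ y ∈ X, bI G x y) →
      Real.log X.card ≤ K + (c0 + ε) * k)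
    (fun z hz => by
      obtain ⟨K, _, H⟩ := diag_cell3 hc0 hη2 hε hκ0 (h3 z hz)
      refine ⟨K, fun C hC => ?_⟩
      intro V _ G _ X X' k h1 h2 h3 h4 h5 h6 h7
      exact (H V G X X' k h1 h2 h3 h4 h5 h6 h7).trans (by linarith))
  refine ⟨max (max K1 K3) (2 / η), le_max_of_le_left (le_max_of_le_left hK1), ?_⟩
  intro V _ G _ X X1 k hR hB hX1 hK hhalf hdeg
  have hXη : 2 / η ≤ X.card := (le_max_right _ _).trans hK
  have hXpos : (0 : ℝ) < X.card := lt_of_lt_of_le (by positivity) hXη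
  have hXne : X.Nonempty := by
    rw [← Finset.card_pos]; exact_mod_cast hXpos
  have hX1pos : (0 : ℝ) < X1.card := lt_of_lt_of_le (by positivity) hhalf
  have hX1ne : X1.Nonempty := by
    rw [← Finset.card_pos]; exact_mod_cast hX1pos
  have hprop : ∀ X' : Finset V, (1 / ((cs.length : ℝ) + 2)) * X1.card ≤ X'.card →
      κ * X.card ≤ X'.card := by
    intro X' h
    refine le_trans ?_ h
    rw [hκ, mul_assoc]
    gcongr
  rcases pigeon' cs X1 (fun x => (qr + η / 2) * X.card ≤ ∑ y ∈ X, rI G x y)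
      (fun _ => False)
      (fun z x => (z.1 + η / 2) * X.card ≤ ∑ y ∈ X, rI G x y ∧
        (z.2 + η / 2) * X.card ≤ ∑ y ∈ X, bI G x y) hX1ne
      (fun x hx => by
        rcases vertex_cases hη hcov G hXη (hX1 hx) with h | h | h
        · exact Or.inl h
        · exfalso
          have h4 := deg_add G (hX1 hx)
          have h5 := hdeg x hx
          have h6 : 0 < η / 2 * X.card := by positivity
          linarith
        · exact Or.inr (Or.inr h)) with ⟨X', hX', h, hd⟩ | ⟨X', hX', h, hd⟩ | ⟨z, hz, X', hX', h, hd⟩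
  · refine (H1 V G X X' k hXne hR hB (hX'.trans hX1) (hprop X' h) hd).trans ?_
    have : K1 ≤ max (max K1 K3) (2 / η) := le_max_of_le_left (le_max_left _ _)
    linarith
  · exfalso
    have hX'pos : (0 : ℝ) < X'.card := lt_of_lt_of_le (by positivity) h
    have hX'ne : X'.Nonempty := by
      rw [← Finset.card_pos]; exact_mod_cast hX'pos
    obtain ⟨x, hx⟩ := hX'ne
    exact hd x hx
  · refine (H3 z hz K3 le_rfl V G X X' k hXne hR hB (hX'.trans hX1) (hprop X' h)
      (fun x hx => (hd x hx).1) (fun x hx => (hd x hx).2)).trans ?_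
    have : K3 ≤ max (max K1 K3) (2 / η) := le_max_of_le_left (le_max_right _ _)
    linarith

/-- The diagonal step with three set cells. -/
theorem diagStep3 {P : ℝ → ℝ → ℝ → ℝ → Prop} (hT : T1P P) : DiagStep3 P := by
  intro c0 qr cs h2 h3 hcov ε hε
  classical
  have hc0 : 0 ≤ c0 := by
    obtain ⟨a, L, M, v', ha, ha1, hq, hq1, hL, hM, hcert, hg, hcost⟩ := h2
    have hv'0 : 0 ≤ v' := good_v_nonneg hg
    have : 0 ≤ (1 + a) * c0 := by linarith
    exact nonneg_of_mul_nonneg_right this (by linarith)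
  obtain ⟨K2, hK2, H⟩ := diag_half3 hT hc0 hε h2 h3 hcov
  refine ⟨Real.exp K2 + K2, by positivity, ?_⟩
  intro V _ G X k hR hB
  have hexp1 : 1 ≤ Real.exp ((c0 + ε) * k) := by
    apply Real.one_le_exp; positivity
  rcases X.eq_empty_or_nonempty with rfl | hX
  · simp only [card_empty, Nat.cast_zero]; positivity
  have hXpos : (0 : ℝ) < X.card := by exact_mod_cast hX.card_pos
  by_cases hsmall : (X.card : ℝ) ≤ K2
  · have h1 : 0 < Real.exp K2 := Real.exp_pos _
    nlinarith
  push Not at hsmall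
  have hlog : Real.log X.card ≤ K2 + (c0 + ε) * k := by
    by_cases hhalf : (1 / 2) * (X.card : ℝ)
        ≤ (X.filter (fun x => ∑ y ∈ X, bI G x y ≤ ∑ y ∈ X, rI G x y)).card
    · exact H V G X _ k hR hB (filter_subset _ _) hsmall.le hhalf
        (fun x hx => (mem_filter.1 hx).2)
    · push Not at hhalf
      have hcompl : (X.filter (fun x => ∑ y ∈ X, bI G x y ≤ ∑ y ∈ X, rI G x y)).card
          + (X.filter (fun x => ¬ (∑ y ∈ X, bI G x y ≤ ∑ y ∈ X, rI G x y))).card = X.card :=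
        Finset.card_filter_add_card_filter_not _
      have hcompl' : ((X.filter (fun x => ∑ y ∈ X, bI G x y ≤ ∑ y ∈ X, rI G x y)).card : ℝ)
          + (X.filter (fun x => ¬ (∑ y ∈ X, bI G x y ≤ ∑ y ∈ X, rI G x y))).card = X.card := by
        exact_mod_cast hcompl
      refine H V Gᶜ X (X.filter (fun x => ¬ (∑ y ∈ X, bI G x y ≤ ∑ y ∈ X, rI G x y))) k hB
        (NoR_iff.1 hR) (filter_subset _ _) hsmall.le (by linarith) ?_
      intro x hx
      have h1 := (mem_filter.1 hx).2
      push Not at h1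
      simp only [rI_compl, bI_compl]
      exact h1.le
  have hfin3 : (X.card : ℝ) ≤ Real.exp K2 * Real.exp ((c0 + ε) * k) := by
    rw [← Real.exp_add, ← Real.log_le_iff_le_exp hXpos]
    exact hlog
  nlinarith [Real.exp_pos K2]

end Pool.Agent.H98.RM
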