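import Pool.Agent.H98.RM.Diag
import Pool.Agent.H92.RamseyF

/-!
Mirror symmetric families for the bootstrap with three set steps, and constructors for checkers.
-/

open Finset

namespace Pool.Agent.H98.RM

open Pool.Agent.H92 Pool.Agent.H92.D Pool.Agent.H92.Num Pool.Agent.H34.RM

/-- exchange of the colours in a three set step -/
lemma step3_swap {ι : Type} [Fintype ι] {u v : ι → ℝ} {u0 v0 q p : ℝ}
    (h : Step3 u v u0 v0 q p) : Step3 v u v0 u0 p q := by
  obtain ⟨a, b, c, L, M, u', v', w, w', s, ha, hb, hc, hL, hM, hconc, hw, hw1, hwL, hwv,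
    hw', hw1', hwM, hwu, hs, h1, h2⟩ := h
  refine ⟨a, c, b, M, L, v', u', w', w, s, ha, hc, hb, hM, hL, conc3_symm hconc, hw', hw1', hwM,
    hwu, hw, hw1, hwL, hwv, hs, ?_, ?_⟩
  · have : a + c + b + ∑ m, s m = a + b + c + ∑ m, s m := by ring
    rw [this]; exact h2
  · have : a + c + b + ∑ m, s m = a + b + c + ∑ m, s m := by ring
    rw [this]; exact h1

/-- reindexing of a three set step -/
lemma step3_equiv {ι : Type} [Fintype ι] (σ : ι ≃ ι) {u v u1 v1 : ι → ℝ}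
    (hu : ∀ m, u1 m = u (σ m)) (hv : ∀ m, v1 m = v (σ m)) {x y q p : ℝ}
    (h : Step3 u v x y q p) : Step3 u1 v1 x y q p := by
  obtain ⟨a, b, c, L, M, u', v', w, w', s, ha, hb, hc, hL, hM, hconc, hw, hw1, hwL, hwv,
    hw', hw1', hwM, hwu, hs, h1, h2⟩ := h
  have eu : ∀ f : ι → ℝ, ∑ m, f (σ m) * u1 m = ∑ m, f m * u m := by
    intro f
    rw [← Equiv.sum_comp σ (fun m => f m * u m)]
    exact Finset.sum_congr rfl fun m _ => by rw [hu]
  have ev : ∀ f : ι → ℝ, ∑ m, f (σ m) * v1 m = ∑ m, f m * v m := by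
    intro f
    rw [← Equiv.sum_comp σ (fun m => f m * v m)]
    exact Finset.sum_congr rfl fun m _ => by rw [hv]
  have es : ∀ f : ι → ℝ, ∑ m, f (σ m) = ∑ m, f m := fun f => Equiv.sum_comp σ f
  refine ⟨a, b, c, L, M, u', v', fun m => w (σ m), fun m => w' (σ m), fun m => s (σ m), ha, hb,
    hc, hL, hM, hconc, fun m => hw _, ?_, ?_, ?_, fun m => hw' _, ?_, ?_, ?_, fun m => hs _,
    ?_, ?_⟩
  · rw [es]; exact hw1
  · rw [eu]; exact hwL
  · rw [ev]; exact hwv
  · rw [es]; exact hw1'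
  · rw [ev]; exact hwM
  · rw [eu]; exact hwu
  · rw [eu, es]; exact h1
  · rw [ev, es]; exact h2

/-- a three set step from two point weights -/
lemma step3_two {ι : Type} [Fintype ι] [DecidableEq ι] {u v : ι → ℝ}
    {x y q p a b c L M uu vv w1 w2 w1' w2' s1 s2 : ℝ} {i1 i2 i1' i2' j1 j2 : ι}
    (ha : 0 < a) (hb : 0 < b) (hc : 0 < c) (hL : 0 ≤ L) (hM : 0 ≤ M)
    (hconc : Conc3 a b c q p L M) (hw1 : 0 ≤ w1) (hw2 : 0 ≤ w2) (hw : w1 + w2 = 1)
    (hwu : b * (w1 * u i1 + w2 * u i2) ≤ L) (hwv : w1 * v i1 + w2 * v i2 ≤ vv)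
    (hw1' : 0 ≤ w1') (hw2' : 0 ≤ w2') (hw' : w1' + w2' = 1)
    (hwv' : c * (w1' * v i1' + w2' * v i2') ≤ M) (hwu' : w1' * u i1' + w2' * u i2' ≤ uu)
    (hs1 : 0 ≤ s1) (hs2 : 0 ≤ s2)
    (h1 : L + c * uu + (s1 * u j1 + s2 * u j2) ≤ (a + b + c + (s1 + s2)) * x)
    (h2 : M + b * vv + (s1 * v j1 + s2 * v j2) ≤ (a + b + c + (s1 + s2)) * y) :
    Step3 u v x y q p := by
  refine ⟨a, b, c, L, M, uu, vv, fun m => (if m = i1 then w1 else 0) + (if m = i2 then w2 else 0),
    fun m => (if m = i1' then w1' else 0) + (if m = i2' then w2' else 0),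
    fun m => (if m = j1 then s1 else 0) + (if m = j2 then s2 else 0), ha, hb, hc, hL, hM,
    hconc, ?_, ?_, ?_, ?_, ?_, ?_, ?_, ?_, ?_, ?_, ?_⟩
  · intro m
    apply add_nonneg <;> split_ifs <;> simp [hw1, hw2]
  · rw [sum_two']; exact hw
  · rw [sum_two]; exact hwu
  · rw [sum_two]; exact hwv
  · intro m
    apply add_nonneg <;> split_ifs <;> simp [hw1', hw2']
  · rw [sum_two']; exact hw'
  · rw [sum_two]; exact hwv'
  · rw [sum_two]; exact hwu'
  · intro m
    apply add_nonneg <;> split_ifs <;> simp [hs1, hs2]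
  · rw [sum_two, sum_two']; exact h1
  · rw [sum_two, sum_two']; exact h2

/-- the swapped list of cells -/
def swapL (cs : List (ℝ × ℝ)) : List (ℝ × ℝ) := cs.map (fun z => (z.2, z.1))

lemma mem_swapL {cs : List (ℝ × ℝ)} {z : ℝ × ℝ} : z ∈ swapL cs ↔ (z.2, z.1) ∈ cs := by
  unfold swapL
  rw [List.mem_map]
  constructor
  · rintro ⟨w, hw, rfl⟩; exact hw
  · intro h; exact ⟨(z.2, z.1), h, rfl⟩

lemma covers_swap {cs : List (ℝ × ℝ)} {lo hi : ℝ} (h : Covers cs lo hi) :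
    Covers (swapL cs) (1 - hi) (1 - lo) := by
  intro d h1 h2
  obtain ⟨z, hz, hz1, hz2⟩ := h (1 - d) (by linarith) (by linarith)
  exact ⟨(z.2, z.1), mem_swapL.2 hz, by simp only; linarith, by simp only; linarith⟩

lemma covers_append {cs ds : List (ℝ × ℝ)} {lo mid hi : ℝ} (h : Covers cs lo mid)
    (h' : Covers ds mid hi) : Covers (cs ++ ds) lo hi := by
  intro d h1 h2
  rcases le_total d mid with h3 | h3
  · obtain ⟨z, hz, hz'⟩ := h d h1 h3
    exact ⟨z, List.mem_append_left _ hz, hz'⟩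
  · obtain ⟨z, hz, hz'⟩ := h' d h3 h2
    exact ⟨z, List.mem_append_right _ hz, hz'⟩

/-- the two symmetric coordinate functions of the family `(U i, V i)` and its mirror -/
def famU {n : ℕ} (U V : Fin n → ℝ) (m : Fin n × Bool) : ℝ := if m.2 then V m.1 else U m.1

def famV {n : ℕ} (U V : Fin n → ℝ) (m : Fin n × Bool) : ℝ := if m.2 then U m.1 else V m.1

/-- the exchange of the two copies -/
def flipE (n : ℕ) : (Fin n × Bool) ≃ (Fin n × Bool) :=
  Equiv.prodCongr (Equiv.refl _) Equiv.boolNot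

lemma famU_flip {n : ℕ} (U V : Fin n → ℝ) (m : Fin n × Bool) :
    famU U V m = famV U V (flipE n m) := by
  rcases m with ⟨i, b⟩
  cases b <;> rfl

lemma famV_flip {n : ℕ} (U V : Fin n → ℝ) (m : Fin n × Bool) :
    famV U V m = famU U V (flipE n m) := by
  rcases m with ⟨i, b⟩
  cases b <;> rfl

/-- mirror image of a three set step for a mirror symmetric family -/
lemma step3_mirror {n : ℕ} {U V : Fin n → ℝ} {x y q p : ℝ}
    (h : Step3 (famU U V) (famV U V) x y q p) : Step3 (famU U V) (famV U V) y x p q :=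
  step3_equiv (flipE n) (famU_flip U V) (famV_flip U V) (step3_swap h)

/-- mirror image of a two set step for a mirror symmetric family -/
lemma stepCP_mirror {P : ℝ → ℝ → ℝ → ℝ → Prop} {n : ℕ} {U V : Fin n → ℝ} {x y q : ℝ}
    (h : StepCP P (famV U V) (famU U V) x y q) : StepCP P (famU U V) (famV U V) x y q :=
  stepCP_equiv (flipE n) (famU_flip U V) (famV_flip U V) h

lemma stepCP_mirror' {P : ℝ → ℝ → ℝ → ℝ → Prop} {n : ℕ} {U V : Fin n → ℝ} {x y q : ℝ}
    (h : StepCP P (famU U V) (famV U V) x y q) : StepCP P (famV U V) (famU U V) x y q :=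
  stepCP_equiv (flipE n) (famV_flip U V) (famU_flip U V) h

/-- The condition for the line `(x, y)` in the mirror symmetric family. -/
def LineOK (P : ℝ → ℝ → ℝ → ℝ → Prop) {n : ℕ} (U V : Fin n → ℝ) (x y : ℝ) : Prop :=
  Real.exp (-x) + Real.exp (-y) ≤ 1 ∨
    ∃ (qr qb : ℝ) (cs : List (ℝ × ℝ)), Covers cs (1 - qb) qr ∧
      (∀ z ∈ cs, Step3 (famU U V) (famV U V) x y z.1 z.2) ∧
      (Real.exp (-x) ≤ qr ∨ StepCP P (famU U V) (famV U V) x y qr) ∧
      (Real.exp (-y) ≤ qb ∨ StepCP P (famU U V) (famV U V) y x qb)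

lemma LineOK.swap {P : ℝ → ℝ → ℝ → ℝ → Prop} {n : ℕ} {U V : Fin n → ℝ} {x y : ℝ}
    (h : LineOK P U V x y) : LineOK P U V y x := by
  rcases h with h | ⟨qr, qb, cs, h1, h2, h3, h4⟩
  · left; linarith
  · right
    refine ⟨qb, qr, swapL cs, ?_, ?_, h4, h3⟩
    · have := covers_swap h1
      have e : 1 - (1 - qb) = qb := by ring
      rwa [e] at this
    · intro z hz
      exact step3_mirror (h2 _ (mem_swapL.1 hz))

/-- A symmetric line only needs the cells of one half. -/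
lemma lineOK_sym {P : ℝ → ℝ → ℝ → ℝ → Prop} {n : ℕ} {U V : Fin n → ℝ} {x : ℝ} {qr : ℝ}
    {cs : List (ℝ × ℝ)} (h1 : Covers cs (1 / 2) qr)
    (h2 : ∀ z ∈ cs, Step3 (famU U V) (famV U V) x x z.1 z.2)
    (h3 : Real.exp (-x) ≤ qr ∨ StepCP P (famU U V) (famV U V) x x qr) :
    LineOK P U V x x := by
  right
  refine ⟨qr, qr, swapL cs ++ cs, ?_, ?_, h3, h3⟩
  · refine covers_append (mid := 1 / 2) ?_ h1
    have := covers_swap h1
    have e : (1:ℝ) - 1 / 2 = 1 / 2 := by norm_num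
    rwa [e] at this
  · intro z hz
    rcases List.mem_append.1 hz with hz | hz
    · exact step3_mirror (h2 _ (mem_swapL.1 hz))
    · exact h2 z hz

/-- Mirror symmetric bootstrap with three set steps. -/
theorem bootstrap3_mirror {P : ℝ → ℝ → ℝ → ℝ → Prop} (hT : T1P P) {n : ℕ}
    (U V : Fin n → ℝ) (hU : ∀ i, 0 ≤ U i) (hV : ∀ i, 0 ≤ V i)
    (h : ∀ i, LineOK P U V (U i) (V i)) : ∀ i, Good (U i) (V i) := by
  have key := bootstrap3 hT (Fin n × Bool) (famU U V) (famV U V) ?_ ?_ ?_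
  · intro i
    exact key (i, false)
  · rintro ⟨i, b⟩
    cases b
    · exact hU i
    · exact hV i
  · rintro ⟨i, b⟩
    cases b
    · exact hV i
    · exact hU i
  · intro m
    have h1 : LineOK P U V (famU U V m) (famV U V m) := by
      rcases m with ⟨i, b⟩
      cases b
      · exact h i
      · exact (h i).swap
    rcases h1 with h1 | ⟨qr, qb, cs, h1, h2, h3, h4⟩
    · exact Or.inl h1
    · refine Or.inr ⟨qr, qb, cs, h1, h2, h3, ?_⟩
      rcases h4 with h4 | h4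
      · exact Or.inl h4
      · exact Or.inr (stepCP_mirror' h4)

end Pool.Agent.H98.RM
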