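import Pool.Agent.H98.RM.Root

/-!
The bootstrap theorem with three set steps.
-/

open Finset

namespace Pool.Agent.H98.RM

open Pool.Agent.H92 Pool.Agent.H92.D Pool.Agent.H34.RM

/-- a common threshold for finitely many statements -/
lemma exists_common {α : Type} (cs : List α) (R : α → ℝ → Prop)
    (h : ∀ z ∈ cs, ∃ C0 : ℝ, ∀ C : ℝ, C0 ≤ C → R z C) :
    ∃ C0 : ℝ, ∀ z ∈ cs, ∀ C : ℝ, C0 ≤ C → R z C := by
  induction cs with
  | nil => exact ⟨0, fun z hz => absurd hz (by simp)⟩
  | cons z t ih =>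
    obtain ⟨C1, h1⟩ := h z List.mem_cons_self
    obtain ⟨C2, h2⟩ := ih (fun w hw => h w (List.mem_cons_of_mem _ hw))
    refine ⟨max C1 C2, fun w hw C hC => ?_⟩
    rcases List.mem_cons.1 hw with hw | hw
    · subst hw; exact h1 C ((le_max_left _ _).trans hC)
    · exact h2 w hw C ((le_max_right _ _).trans hC)

open Classical in
/-- pigeonhole -/
lemma pigeon {V α : Type} (cs : List α) (X : Finset V) (A B : V → Prop) (Q : α → V → Prop)
    (hX : X.Nonempty) (h : ∀ x ∈ X, A x ∨ B x ∨ ∃ z ∈ cs, Q z x) :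
    (1 / ((cs.length : ℝ) + 2)) * X.card ≤ (X.filter A).card ∨
    (1 / ((cs.length : ℝ) + 2)) * X.card ≤ (X.filter B).card ∨
    ∃ z ∈ cs, (1 / ((cs.length : ℝ) + 2)) * X.card ≤ (X.filter (Q z)).card := by
  by_contra hcon
  push Not at hcon
  obtain ⟨hA, hB, hQ⟩ := hcon
  set m : ℝ := (1 / ((cs.length : ℝ) + 2)) * X.card with hm
  have hm0 : 0 ≤ m := by positivity
  have hsub : X ⊆ X.filter A ∪ (X.filter B ∪ cs.toFinset.biUnion (fun z => X.filter (Q z))) := by
    intro x hx
    rcases h x hx with h1 | h1 | ⟨z, hz, h1⟩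
    · exact mem_union_left _ (mem_filter.2 ⟨hx, h1⟩)
    · exact mem_union_right _ (mem_union_left _ (mem_filter.2 ⟨hx, h1⟩))
    · exact mem_union_right _ (mem_union_right _ (mem_biUnion.2
        ⟨z, List.mem_toFinset.2 hz, mem_filter.2 ⟨hx, h1⟩⟩))
  have h1 : X.card ≤ (X.filter A).card + ((X.filter B).card
      + ∑ z ∈ cs.toFinset, (X.filter (Q z)).card) := by
    refine (card_le_card hsub).trans ((card_union_le _ _).trans ?_)
    gcongr
    refine (card_union_le _ _).trans ?_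
    gcongr
    exact card_biUnion_le
  have h2 : (X.card : ℝ) ≤ (X.filter A).card + ((X.filter B).card
      + ∑ z ∈ cs.toFinset, ((X.filter (Q z)).card : ℝ)) := by exact_mod_cast h1
  have h3 : ∑ z ∈ cs.toFinset, ((X.filter (Q z)).card : ℝ) ≤ ∑ _z ∈ cs.toFinset, m :=
    Finset.sum_le_sum fun z hz => (hQ z (List.mem_toFinset.1 hz)).le
  rw [Finset.sum_const, nsmul_eq_mul] at h3
  have h4 : (cs.toFinset.card : ℝ) ≤ cs.length := by exact_mod_cast cs.toFinset_card_le
  have h5 : (cs.toFinset.card : ℝ) * m ≤ cs.length * m := mul_le_mul_of_nonneg_right h4 hm0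
  have h6 : (X.card : ℝ) = ((cs.length : ℝ) + 2) * m := by
    rw [hm]; field_simp
  linarith

/-- pigeonhole, with subsets -/
lemma pigeon' {V α : Type} (cs : List α) (X : Finset V) (A B : V → Prop) (Q : α → V → Prop)
    (hX : X.Nonempty) (h : ∀ x ∈ X, A x ∨ B x ∨ ∃ z ∈ cs, Q z x) :
    (∃ X' ⊆ X, (1 / ((cs.length : ℝ) + 2)) * X.card ≤ X'.card ∧ ∀ x ∈ X', A x) ∨
    (∃ X' ⊆ X, (1 / ((cs.length : ℝ) + 2)) * X.card ≤ X'.card ∧ ∀ x ∈ X', B x) ∨
    ∃ z ∈ cs, ∃ X' ⊆ X, (1 / ((cs.length : ℝ) + 2)) * X.card ≤ X'.card ∧ ∀ x ∈ X', Q z x := by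
  classical
  rcases pigeon cs X A B Q hX h with h | h | ⟨z, hz, h⟩
  · exact Or.inl ⟨_, filter_subset _ _, h, fun x hx => (mem_filter.1 hx).2⟩
  · exact Or.inr (Or.inl ⟨_, filter_subset _ _, h, fun x hx => (mem_filter.1 hx).2⟩)
  · exact Or.inr (Or.inr ⟨z, hz, _, filter_subset _ _, h, fun x hx => (mem_filter.1 hx).2⟩)

/-- margins for the vertices -/
lemma vertex_cases {cs : List (ℝ × ℝ)} {lo hi : ℝ} {η : ℝ} (hη : 0 < η)
    (hcov : ∀ d : ℝ, 0 ≤ d → d ≤ 1 →
      hi + η ≤ d ∨ d ≤ lo - η ∨ ∃ z ∈ cs, z.1 + η ≤ d ∧ d ≤ 1 - z.2 - η)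
    {V : Type} [DecidableEq V] (G : SimpleGraph V) [DecidableRel G.Adj] {X : Finset V}
    (hX : 2 / η ≤ X.card) {x : V} (hx : x ∈ X) :
    (hi + η / 2) * X.card ≤ ∑ y ∈ X, rI G x y ∨
    ((1 - lo) + η / 2) * X.card ≤ ∑ y ∈ X, bI G x y ∨
    ∃ z ∈ cs, (z.1 + η / 2) * X.card ≤ ∑ y ∈ X, rI G x y ∧
      (z.2 + η / 2) * X.card ≤ ∑ y ∈ X, bI G x y := by
  have hpos : (0 : ℝ) < X.card := lt_of_lt_of_le (by positivity) hX
  have hadd := deg_add G hx
  have hr0 : 0 ≤ ∑ y ∈ X, rI G x y := by rw [sum_rI]; positivity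
  have hb0 : 0 ≤ ∑ y ∈ X, bI G x y := by rw [sum_bI]; positivity
  have h2 : 2 ≤ η * X.card := by
    rw [div_le_iff₀ hη] at hX; linarith
  set R : ℝ := ∑ y ∈ X, rI G x y with hR
  set B : ℝ := ∑ y ∈ X, bI G x y with hB
  set N : ℝ := (X.card : ℝ) with hN
  have hd0 : 0 ≤ R / N := by positivity
  have hd1 : R / N ≤ 1 := by rw [div_le_one hpos]; linarith
  rcases hcov (R / N) hd0 hd1 with h | h | ⟨z, hz, h, h'⟩
  · left
    rw [le_div_iff₀ hpos] at h
    nlinarith
  · right; left
    rw [div_le_iff₀ hpos] at h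
    nlinarith
  · right; right
    rw [le_div_iff₀ hpos] at h
    rw [div_le_iff₀ hpos] at h'
    refine ⟨z, hz, ?_, ?_⟩ <;> nlinarith

/-- no violation at level `(k,l)` when all smaller levels are fine -/
lemma no_violation3 {P : ℝ → ℝ → ℝ → ℝ → Prop} (hT : T1P P) {ι : Type} [Fintype ι] (u v : ι → ℝ)
    (hu : ∀ i, 0 ≤ u i) (hv : ∀ i, 0 ≤ v i) (i : ι) (ε : ℝ) (hε : 0 < ε)
    (hcase : Real.exp (-u i) + Real.exp (-v i) ≤ 1 ∨
      ∃ (qr qb : ℝ) (cs : List (ℝ × ℝ)), Covers cs (1 - qb) qr ∧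
        (∀ z ∈ cs, Step3 u v (u i) (v i) z.1 z.2) ∧
        (Real.exp (-u i) ≤ qr ∨ StepCP P u v (u i) (v i) qr) ∧
        (Real.exp (-v i) ≤ qb ∨ StepCP P v u (v i) (u i) qb)) :
    ∃ C0 : ℝ, ∀ C : ℝ, C0 ≤ C → 1 ≤ C →
      ∀ (V : Type) (G : SimpleGraph V)
        (X : Finset V) (k l : ℕ), NoR G k X → NoB G l X →
        (∀ m, k * u i + l * v i ≤ k * u m + l * v m) →
        C * Real.exp (ε * (k + l) + k * u i + l * v i) < X.card →
        (X.card : ℝ) ≤ 2 * (C * Real.exp (ε * (k + l) + k * u i + l * v i)) →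
        IHyp G u v C ε (k + l) → False := by
  classical
  rcases hcase with hES | ⟨qr, qb, cs, hcov, hcells, hred, hblue⟩
  · exact no_violationP hT u v hu hv i ε hε (Or.inl hES)
  · obtain ⟨η, hη, hcov⟩ := cover_eta hcov
    have hη2 : 0 < η / 2 := by linarith
    set κ : ℝ := 1 / ((cs.length : ℝ) + 2) with hκ
    have hκ0 : 0 < κ := by positivity
    obtain ⟨Cr, hCr⟩ := two_contra hT u v hu hv i qr (η / 2) ε κ hη2 hε hκ0 hred
    obtain ⟨Cb, hCb⟩ := two_contra hT v u hv hu i qb (η / 2) ε κ hη2 hε hκ0 hblue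
    obtain ⟨Cc, hCc⟩ := exists_common cs _
      (fun z hz => cell_contra u v hu hv i z.1 z.2 (η / 2) ε κ hη2 hε hκ0 (hcells z hz))
    refine ⟨max (max Cr Cb) (max Cc (2 / η)), ?_⟩
    intro C hC0 hC1 V G X k l hR hB hmin hlt hle hI
    have hCpos : 0 < C := lt_of_lt_of_le one_pos hC1
    have hC0r : Cr ≤ C := le_trans (le_trans (le_max_left _ _) (le_max_left _ _)) hC0
    have hC0b : Cb ≤ C := le_trans (le_trans (le_max_right _ _) (le_max_left _ _)) hC0
    have hC0c : Cc ≤ C := le_trans (le_trans (le_max_left _ _) (le_max_right _ _)) hC0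
    have hC0η : 2 / η ≤ C := le_trans (le_trans (le_max_right _ _) (le_max_right _ _)) hC0
    have hXpos : (0 : ℝ) < X.card := lt_of_le_of_lt (by positivity) hlt
    have hXne : X.Nonempty := by
      rw [← Finset.card_pos]; exact_mod_cast hXpos
    have hBC : C ≤ C * Real.exp (ε * (k + l) + k * u i + l * v i) := by
      have h4 : 1 ≤ Real.exp (ε * (k + l) + k * u i + l * v i) := by
        apply Real.one_le_exp
        have := hu i
        have := hv i
        positivity
      nlinarith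
    have hXη : 2 / η ≤ X.card := (hC0η.trans hBC).trans hlt.le
    rcases pigeon' cs X (fun x => (qr + η / 2) * X.card ≤ ∑ y ∈ X, rI G x y)
      (fun x => (qb + η / 2) * X.card ≤ ∑ y ∈ X, bI G x y)
      (fun z x => (z.1 + η / 2) * X.card ≤ ∑ y ∈ X, rI G x y ∧
        (z.2 + η / 2) * X.card ≤ ∑ y ∈ X, bI G x y) hXne
      (fun x hx => by
        rcases vertex_cases hη hcov G hXη hx with h | h | h
        · exact Or.inl h
        · right; left
          have e : (1 - (1 - qb)) = qb := by ring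
          rw [e] at h; exact h
        · exact Or.inr (Or.inr h)) with ⟨X', hX', h, hd⟩ | ⟨X', hX', h, hd⟩ | ⟨z, hz, X', hX', h, hd⟩
    · exact hCr C hC0r hC1 V G X X' k l hR hB hmin hlt hle hI hX' h hd
    · have harg : ε * ((l : ℝ) + k) + l * v i + k * u i = ε * (k + l) + k * u i + l * v i := by
        ring
      refine hCb C hC0b hC1 V Gᶜ X X' l k hB (NoR_iff.1 hR) ?_ ?_ ?_ ?_ hX' h ?_
      · intro m
        linarith [hmin m]
      · rw [harg]; exact hlt
      · rw [harg]; exact hle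
      · have := hI.compl
        rwa [add_comm k l] at this
      · intro x hx
        have h1 := hd x hx
        simpa only [rI_compl] using h1
    · exact hCc z hz C hC0c hC1 V G X X' k l hR hB hmin hlt hle hI hX' h
        (fun x hx => (hd x hx).1) (fun x hx => (hd x hx).2)

/-- The bootstrap theorem with three set steps. -/
theorem bootstrap3 {P : ℝ → ℝ → ℝ → ℝ → Prop} (hT : T1P P) : Bootstrap3 P := by
  intro ι _ u v hu hv hcase i0 ε hε
  classical
  have hex := fun i => no_violation3 hT u v hu hv i ε hε (hcase i)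
  choose C0 hC0 using hex
  set C : ℝ := 1 + ∑ i, |C0 i| with hC
  have hC1 : 1 ≤ C := by
    have : 0 ≤ ∑ i, |C0 i| := Finset.sum_nonneg fun i _ => abs_nonneg _
    linarith
  have hCi : ∀ i, C0 i ≤ C := by
    intro i
    have h1 : |C0 i| ≤ ∑ i, |C0 i| :=
      Finset.single_le_sum (f := fun i => |C0 i|) (fun i _ => abs_nonneg _) (mem_univ i)
    have := le_abs_self (C0 i)
    linarith
  have hCpos : 0 < C := lt_of_lt_of_le one_pos hC1
  have hmain : ∀ (V : Type) (G : SimpleGraph V) (n k l : ℕ) (X : Finset V),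
      k + l = n → NoR G k X → NoB G l X →
      ∀ m, (X.card : ℝ) ≤ C * Real.exp (ε * (k + l) + k * u m + l * v m) := by
    intro V G n
    induction n using Nat.strong_induction_on with
    | _ n ih =>
      intro k l X hn hR hB m
      by_contra hcon
      push Not at hcon
      have : Nonempty ι := ⟨i0⟩
      obtain ⟨i, hi⟩ := Finite.exists_min (fun i => (k : ℝ) * u i + l * v i)
      have hI : IHyp G u v C ε (k + l) := by
        intro k' l' X' hkl hR' hB' m'
        exact ih (k' + l') (by omega) k' l' X' rfl hR' hB' m'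
      set B : ℝ := C * Real.exp (ε * (k + l) + k * u i + l * v i) with hBdef
      have hBlt : B < X.card := by
        refine lt_of_le_of_lt ?_ hcon
        have : Real.exp (ε * (k + l) + k * u i + l * v i)
            ≤ Real.exp (ε * (k + l) + k * u m + l * v m) := by
          apply Real.exp_le_exp.2
          have := hi m
          linarith
        rw [hBdef]; gcongr
      have hB1 : 1 ≤ B := by
        have h4 : 1 ≤ Real.exp (ε * (k + l) + k * u i + l * v i) := by
          apply Real.one_le_exp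
          have := hu i
          have := hv i
          positivity
        nlinarith
      have hfl : ⌊B⌋₊ + 1 ≤ X.card := by
        have := (Nat.floor_lt (by linarith : 0 ≤ B)).2 hBlt
        omega
      obtain ⟨X0, hX0, hcard⟩ := Finset.exists_subset_card_eq hfl
      have hlt : B < X0.card := by
        rw [hcard]; push_cast; exact Nat.lt_floor_add_one B
      have hle : (X0.card : ℝ) ≤ 2 * B := by
        rw [hcard]; push_cast
        have := Nat.floor_le (by linarith : 0 ≤ B)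
        linarith
      exact hC0 i C (hCi i) hC1 V G X0 k l (NoR_mono hR hX0) (NoB_mono hB hX0) hi hlt hle hI
  refine ⟨C, hCpos, ?_⟩
  intro V _ G X k l hR hB
  exact hmain V G (k + l) k l X rfl hR hB i0

end Pool.Agent.H98.RM
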