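import Pool.Agent.H98.RM.Stm

/-!
Root layer of the two books project (MP_28724c_co): basic lemmas, the cell contradictions.
-/

open Finset

namespace Pool.Agent.H98.RM

open Pool.Agent.H92 Pool.Agent.H92.D Pool.Agent.H34.RM

section basic
variable {V : Type} [DecidableEq V] (G : SimpleGraph V) [DecidableRel G.Adj]

lemma sum_rI (x : V) (X : Finset V) : ∑ y ∈ X, rI G x y = ((rN G x X).card : ℝ) := by
  unfold rI rN
  rw [Finset.card_filter]
  push_cast
  rfl

lemma sum_bI (x : V) (X : Finset V) : ∑ y ∈ X, bI G x y = ((bN G x X).card : ℝ) := by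
  unfold bI bN
  rw [Finset.card_filter]
  push_cast
  rfl

lemma rI_compl [DecidableRel Gᶜ.Adj] (x y : V) : rI Gᶜ x y = bI G x y := by
  unfold rI bI
  have h : Gᶜ.Adj x y ↔ (y ≠ x ∧ ¬ G.Adj x y) := by
    rw [SimpleGraph.compl_adj]
    exact and_congr_left fun _ => ne_comm
  by_cases h1 : Gᶜ.Adj x y
  · rw [if_pos h1, if_pos (h.1 h1)]
  · rw [if_neg h1, if_neg (fun h2 => h1 (h.2 h2))]

lemma bI_compl [DecidableRel Gᶜ.Adj] (x y : V) : bI Gᶜ x y = rI G x y := by
  unfold rI bI
  by_cases h1 : G.Adj x y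
  · rw [if_pos h1, if_pos]
    refine ⟨fun h => ?_, fun h => ?_⟩
    · rw [h] at h1; exact G.loopless.irrefl _ h1
    · rw [SimpleGraph.compl_adj] at h; exact h.2 h1
  · rw [if_neg h1, if_neg]
    rintro ⟨h2, h3⟩
    apply h3
    rw [SimpleGraph.compl_adj]
    exact ⟨fun h => h2 h.symm, h1⟩

lemma deg_add {x : V} {X : Finset V} (hx : x ∈ X) :
    (X.card : ℝ) = ∑ y ∈ X, rI G x y + ∑ y ∈ X, bI G x y + 1 := by
  rw [sum_rI, sum_bI]; exact card_split hx

end basic

/-- Colour symmetry of the conclusion. -/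
theorem conc3_symm {a b c q p L M : ℝ} (h : Conc3 a b c q p L M) : Conc3 a c b p q M L := by
  classical
  intro η hη
  obtain ⟨C1, hC1, H⟩ := h η hη
  refine ⟨C1, hC1, ?_⟩
  intro V _ G _ X Y Z N k l E E' hX hYn hZn hXN hYN hZN hR hB hY hZ hdR hdB
  have h1 := H V Gᶜ X Z Y N l k E' E hX hZn hYn hXN hZN hYN (NoB_iff.1 hB) (NoR_iff.1 hR)
    (fun j hj Z' hZ' hn => hZ j hj Z' hZ' (NoB_iff.2 hn))
    (fun j hj Y' hY' hn => hY j hj Y' hY' (NoR_iff.2 hn))
    (fun x hx => by
      have := hdB x hx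
      simpa only [rI_compl] using this)
    (fun x hx => by
      have := hdR x hx
      simpa only [bI_compl] using this)
  linarith

/-- Compactness: a uniform margin. -/
lemma cover_eta {cs : List (ℝ × ℝ)} {lo hi : ℝ} (h : Covers cs lo hi) :
    ∃ η : ℝ, 0 < η ∧ ∀ d : ℝ, 0 ≤ d → d ≤ 1 →
      hi + η ≤ d ∨ d ≤ lo - η ∨ ∃ z ∈ cs, z.1 + η ≤ d ∧ d ≤ 1 - z.2 - η := by
  let c : Option (Option {z : ℝ × ℝ // z ∈ cs}) → Set ℝ := fun o =>
    match o with
    | none => Set.Ioi hi
    | some none => Set.Iio lo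
    | some (some z) => Set.Ioo z.1.1 (1 - z.1.2)
  have hop : ∀ o, IsOpen (c o) := by
    intro o
    rcases o with _ | _ | z
    · exact isOpen_Ioi
    · exact isOpen_Iio
    · exact isOpen_Ioo
  have hcov : Set.Icc (0:ℝ) 1 ⊆ ⋃ o, c o := by
    intro d _
    rw [Set.mem_iUnion]
    by_cases h1 : hi < d
    · exact ⟨none, h1⟩
    by_cases h2 : d < lo
    · exact ⟨some none, h2⟩
    push Not at h1 h2
    obtain ⟨z, hz, hz1, hz2⟩ := h d h2 h1
    exact ⟨some (some ⟨z, hz⟩), hz1, hz2⟩
  obtain ⟨δ, hδ, hL⟩ := lebesgue_number_lemma_of_metric isCompact_Icc hop hcov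
  refine ⟨δ / 2, by linarith, ?_⟩
  intro d hd0 hd1
  obtain ⟨o, ho⟩ := hL d ⟨hd0, hd1⟩
  have hm1 : d - δ / 2 ∈ Metric.ball d δ := by
    rw [Metric.mem_ball, Real.dist_eq]
    rw [abs_lt]; constructor <;> linarith
  have hm2 : d + δ / 2 ∈ Metric.ball d δ := by
    rw [Metric.mem_ball, Real.dist_eq]
    rw [abs_lt]; constructor <;> linarith
  have h1 := ho hm1
  have h2 := ho hm2
  rcases o with _ | _ | z
  · left
    have : hi < d - δ / 2 := h1
    linarith
  · right; left
    have : d + δ / 2 < lo := h2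
    linarith
  · right; right
    have e1 : z.1.1 < d - δ / 2 := h1.1
    have e2 : d + δ / 2 < 1 - z.1.2 := h2.2
    exact ⟨z.1, z.2, by linarith, by linarith⟩

/-- chains give covers -/
lemma covers_of_chain : ∀ (cs : List (ℝ × ℝ)) (lo hi : ℝ), Chain cs lo hi → Covers cs lo hi
  | [], lo, hi, h => by
    intro d h1 h2
    have : hi < lo := h
    linarith
  | z :: t, lo, hi, h => by
    intro d h1 h2
    obtain ⟨h3, h4⟩ : z.1 < lo ∧ Chain t (1 - z.2) hi := h
    by_cases h5 : d < 1 - z.2
    · exact ⟨z, List.mem_cons_self, by linarith, h5⟩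
    · push Not at h5
      obtain ⟨w, hw, hw1, hw2⟩ := covers_of_chain t (1 - z.2) hi h4 d h5 h2
      exact ⟨w, List.mem_cons_of_mem _ hw, hw1, hw2⟩

/-- threshold for the final contradiction -/
lemma thresh' {a C1 K D : ℝ} (ha : 0 < a) (hC1 : 0 ≤ C1) (hK : 0 ≤ K) (hD : 0 ≤ D) :
    ∃ t0 : ℝ, ∀ t, t0 ≤ t → 0 ≤ t →
      C1 * (1 + Real.sqrt (Real.log 2 + K * t)) + D ≤ a * t := by
  have hlog2 : 0 < Real.log 2 := Real.log_pos (by norm_num)
  obtain ⟨t0, ht0⟩ := Pool.Agent.H92.D.thresh (a := a / 2) (C1 := C1) (K := K) (by linarith) hC1 hK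
  refine ⟨max t0 (2 * D / a), fun t h1 h2 => ?_⟩
  have h3 := ht0 t ((le_max_left _ _).trans h1) h2
  have h4 : 2 * D / a ≤ t := (le_max_right _ _).trans h1
  rw [div_le_iff₀ ha] at h4
  linarith

section contra
variable {ι : Type} [Fintype ι]

/-- The book bound from the induction hypothesis and a convex combination of lines. -/
lemma book_bound {V : Type} {G : SimpleGraph V} (u v : ι → ℝ) (i : ι) {ε C : ℝ} (hε : 0 < ε)
    (hC : 0 < C) {X : Finset V} {k l : ℕ} (hB : NoB G l X)
    (hmin : ∀ m, k * u i + l * v i ≤ k * u m + l * v m)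
    (hle : (X.card : ℝ) ≤ 2 * (C * Real.exp (ε * (k + l) + k * u i + l * v i)))
    (hI : IHyp G u v C ε (k + l)) (w : ι → ℝ) (hw : ∀ m, 0 ≤ w m) (hw1 : ∑ m, w m = 1)
    {Lb v' : ℝ} (hwL : ∑ m, w m * u m ≤ Lb) (hwv : ∑ m, w m * v m ≤ v') :
    ∀ j ≤ k, ∀ Z' ⊆ X, NoR G j Z' →
      (Z'.card : ℝ) ≤ 2 * C * Real.exp (ε * (k + l) + l * v') * Real.exp (j * Lb) := by
  have hcc : ∀ j : ℕ, ∑ m, w m * (j * u m + l * v m) ≤ j * Lb + l * v' := by
    intro j
    have e1 : ∑ m, w m * (j * u m + l * v m)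
        = j * ∑ m, w m * u m + l * ∑ m, w m * v m := by
      rw [Finset.mul_sum, Finset.mul_sum, ← Finset.sum_add_distrib]
      exact Finset.sum_congr rfl fun m _ => by ring
    rw [e1]
    have hj : (0 : ℝ) ≤ j := by positivity
    have hl : (0 : ℝ) ≤ l := by positivity
    nlinarith [mul_le_mul_of_nonneg_left hwL hj, mul_le_mul_of_nonneg_left hwv hl]
  intro j hj Z' hZ' hRZ
  rw [mul_assoc, ← Real.exp_add]
  rcases Z'.eq_empty_or_nonempty with rfl | hne
  · simp only [card_empty, Nat.cast_zero]; positivity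
  have hZpos : (0 : ℝ) < Z'.card := by exact_mod_cast hne.card_pos
  rcases hj.lt_or_eq with hj | rfl
  · have e1 : ∀ m, Real.log Z'.card ≤ Real.log C + ε * (j + l) + (j * u m + l * v m) := by
      intro m
      have f1 := hI j l Z' (by omega) hRZ (NoB_mono hB hZ') m
      have f2 := Real.log_le_log hZpos f1
      rw [Real.log_mul (by positivity) (by positivity), Real.log_exp] at f2
      linarith
    have e2 : Real.log Z'.card ≤ Real.log C + ε * (j + l) + (j * Lb + l * v') := by
      have f1 : ∑ m, w m * Real.log Z'.card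
          ≤ ∑ m, w m * (Real.log C + ε * (j + l) + (j * u m + l * v m)) :=
        Finset.sum_le_sum fun m _ => mul_le_mul_of_nonneg_left (e1 m) (hw m)
      have f2 : ∑ m, w m * (Real.log C + ε * (j + l) + (j * u m + l * v m))
          = (∑ m, w m) * (Real.log C + ε * (j + l)) + ∑ m, w m * (j * u m + l * v m) := by
        rw [Finset.sum_mul, ← Finset.sum_add_distrib]
        exact Finset.sum_congr rfl fun m _ => by ring
      rw [← Finset.sum_mul, f2, hw1, one_mul, one_mul] at f1
      linarith [hcc j]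
    have e3 : (Z'.card : ℝ) ≤ C * Real.exp (ε * (j + l) + (j * Lb + l * v')) := by
      rw [← Real.log_le_log_iff hZpos (by positivity), Real.log_mul (by positivity)
        (by positivity), Real.log_exp]
      linarith
    have e4 : Real.exp (ε * (j + l) + (j * Lb + l * v'))
        ≤ Real.exp (ε * (k + l) + l * v' + j * Lb) := by
      apply Real.exp_le_exp.2
      have : (j : ℝ) ≤ k := by exact_mod_cast hj.le
      have := mul_le_mul_of_nonneg_left this hε.le
      nlinarith
    calc (Z'.card : ℝ) ≤ C * Real.exp (ε * (j + l) + (j * Lb + l * v')) := e3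
      _ ≤ C * Real.exp (ε * (k + l) + l * v' + j * Lb) := by gcongr
      _ ≤ 2 * (C * Real.exp (ε * (k + l) + l * v' + j * Lb)) := by
        have : 0 ≤ C * Real.exp (ε * (k + l) + l * v' + j * Lb) := by positivity
        linarith
      _ = _ := by ring
  · have e1 : (Z'.card : ℝ) ≤ X.card := by exact_mod_cast card_le_card hZ'
    have e2 : (j : ℝ) * u i + l * v i ≤ j * Lb + l * v' := by
      have f1 : ∑ m, w m * (j * u i + l * v i) ≤ ∑ m, w m * (j * u m + l * v m) :=
        Finset.sum_le_sum fun m _ => mul_le_mul_of_nonneg_left (hmin m) (hw m)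
      rw [← Finset.sum_mul, hw1, one_mul] at f1
      linarith [hcc j]
    have e3 : Real.exp (ε * (j + l) + j * u i + l * v i)
        ≤ Real.exp (ε * (j + l) + l * v' + j * Lb) := by
      apply Real.exp_le_exp.2; linarith
    calc (Z'.card : ℝ) ≤ X.card := e1
      _ ≤ 2 * (C * Real.exp (ε * (j + l) + j * u i + l * v i)) := hle
      _ ≤ 2 * (C * Real.exp (ε * (j + l) + l * v' + j * Lb)) := by gcongr
      _ = _ := by ring

/-- bookkeeping of the logarithms -/
lemma log_upper {u v ε C : ℝ} (hu : 0 ≤ u) (hv : 0 ≤ v) (hε : 0 < ε) (hC : 1 ≤ C) {k l n : ℕ}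
    (hn : 0 < (n : ℝ)) (hle : (n : ℝ) ≤ 2 * (C * Real.exp (ε * (k + l) + k * u + l * v))) :
    Real.log n ≤ Real.log 2 + (1 + (u + v) / ε) * (Real.log C + ε * (k + l)) := by
  have hCpos : 0 < C := by linarith
  have hlogC : 0 ≤ Real.log C := Real.log_nonneg hC
  have e1 : Real.log n ≤ Real.log (2 * (C * Real.exp (ε * (k + l) + k * u + l * v))) :=
    Real.log_le_log hn hle
  rw [Real.log_mul (by norm_num) (by positivity), Real.log_mul (by positivity)
    (by positivity), Real.log_exp] at e1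
  set t : ℝ := Real.log C + ε * (k + l) with ht
  have e2 : (k : ℝ) * u + l * v ≤ (u + v) / ε * t := by
    have f1 : (u + v) / ε * (ε * (k + l)) ≤ (u + v) / ε * t := by
      apply mul_le_mul_of_nonneg_left _ (by positivity)
      linarith
    have f2 : (u + v) / ε * (ε * (k + l)) = (u + v) * (k + l) := by
      field_simp
    have f3 : (0 : ℝ) ≤ k * v := mul_nonneg (by positivity) hv
    have f4 : (0 : ℝ) ≤ l * u := mul_nonneg (by positivity) hu
    nlinarith
  nlinarith

/-- The cell contradiction. -/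
lemma cell_contra (u v : ι → ℝ) (hu : ∀ i, 0 ≤ u i) (hv : ∀ i, 0 ≤ v i) (i : ι)
    (q p η ε κ : ℝ) (hη : 0 < η) (hε : 0 < ε) (hκ : 0 < κ)
    (hst : Step3 u v (u i) (v i) q p) :
    ∃ C0 : ℝ, ∀ C : ℝ, C0 ≤ C → 1 ≤ C →
      ∀ (V : Type) [DecidableEq V] (G : SimpleGraph V) [DecidableRel G.Adj]
        (X X' : Finset V) (k l : ℕ), NoR G k X → NoB G l X →
        (∀ m, k * u i + l * v i ≤ k * u m + l * v m) →
        C * Real.exp (ε * (k + l) + k * u i + l * v i) < X.card →
        (X.card : ℝ) ≤ 2 * (C * Real.exp (ε * (k + l) + k * u i + l * v i)) →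
        IHyp G u v C ε (k + l) → X' ⊆ X → κ * X.card ≤ X'.card →
        (∀ x ∈ X', (q + η) * X.card ≤ ∑ y ∈ X, rI G x y) →
        (∀ x ∈ X', (p + η) * X.card ≤ ∑ y ∈ X, bI G x y) → False := by
  obtain ⟨a, b, c, L, M, u', v', w, w', s, ha, hb, hc, hL, hM, hconc, hw, hw1, hwL, hwv,
    hw', hw1', hwM, hwu, hs, h1, h2⟩ := hst
  obtain ⟨C1, hC1, hT1⟩ := hconc η hη
  have hlog2 : 0 < Real.log 2 := Real.log_pos (by norm_num)
  obtain ⟨t0, ht0⟩ := thresh' (a := a) (C1 := C1) (K := 1 + (u i + v i) / ε)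
    (D := (b + c) * Real.log 2 + a * |Real.log κ|) ha hC1
    (by have := hu i; have := hv i; positivity) (by positivity)
  refine ⟨Real.exp t0, ?_⟩
  intro C hC0 hC1' V _ G _ X X' k l hR hB hmin hlt hle hI hXX hκX hdR hdB
  have hCpos : 0 < C := lt_of_lt_of_le one_pos hC1'
  have hXpos : (0 : ℝ) < X.card := lt_of_le_of_lt (by positivity) hlt
  have hX'pos : (0 : ℝ) < X'.card := lt_of_lt_of_le (by positivity) hκX
  have hX'ne : X'.Nonempty := by
    rw [← Finset.card_pos]; exact_mod_cast hX'pos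
  have hXne : X.Nonempty := by
    rw [← Finset.card_pos]; exact_mod_cast hXpos
  have hLb : ∑ m, w m * u m ≤ L / b := by
    rw [le_div_iff₀ hb]; linarith
  have hMc : ∑ m, w' m * v m ≤ M / c := by
    rw [le_div_iff₀ hc]; linarith
  have hbook := book_bound (G := G) u v i hε hCpos hB hmin hle hI w hw hw1 hLb hwv
  have hbook' := book_bound (G := Gᶜ) v u i hε hCpos (X := X) (k := l) (l := k) (NoR_iff.1 hR)
    (fun m => by linarith [hmin m])
    (by
      refine hle.trans (le_of_eq ?_)
      congr 3; ring)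
    (by have := hI.compl; rwa [add_comm k l] at this) w' hw' hw1' hMc hwu
  have hU : X' ∪ X = X := Finset.union_eq_right.2 hXX
  have hmain := hT1 V G X' X X X.card k l (2 * C * Real.exp (ε * (k + l) + l * v'))
      (2 * C * Real.exp (ε * (l + k) + k * u')) hX'ne hXne hXne (card_le_card hXX) le_rfl le_rfl
      (by rwa [hU]) (by rwa [hU]) hbook
      (fun j hj Z' hZ' hn => hbook' j hj Z' hZ' (NoB_iff.1 hn)) hdR hdB
  set N : ℝ := (X.card : ℝ) with hN
  set t : ℝ := Real.log C + ε * (k + l) with ht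
  have hlogC : 0 ≤ Real.log C := Real.log_nonneg hC1'
  have h4 : 0 ≤ ε * ((k : ℝ) + l) := by positivity
  have ht0' : t0 ≤ t := by
    have h3 : t0 ≤ Real.log C := by
      rw [← Real.log_exp t0]
      exact Real.log_le_log (Real.exp_pos _) hC0
    linarith
  have htn : 0 ≤ t := by linarith
  have h3 := ht0 t ht0' htn
  have hlogN : Real.log N ≤ Real.log 2 + (1 + (u i + v i) / ε) * t :=
    log_upper (hu i) (hv i) hε hC1' hXpos hle
  have hsqrt : Real.sqrt (Real.log N)
      ≤ Real.sqrt (Real.log 2 + (1 + (u i + v i) / ε) * t) := Real.sqrt_le_sqrt hlogN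
  have hlogN2 : Real.log C + (ε * (k + l) + k * u i + l * v i) < Real.log N := by
    have e1 := Real.log_lt_log (by positivity) hlt
    rwa [Real.log_mul (by positivity) (by positivity), Real.log_exp] at e1
  have hlogE : Real.log (2 * C * Real.exp (ε * (k + l) + l * v'))
      = Real.log 2 + Real.log C + (ε * (k + l) + l * v') := by
    rw [Real.log_mul (by positivity) (by positivity), Real.log_mul (by norm_num)
      (by positivity), Real.log_exp]
  have hlogE' : Real.log (2 * C * Real.exp (ε * (l + k) + k * u'))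
      = Real.log 2 + Real.log C + (ε * (k + l) + k * u') := by
    rw [Real.log_mul (by positivity) (by positivity), Real.log_mul (by norm_num)
      (by positivity), Real.log_exp]
    ring
  rw [hlogE, hlogE'] at hmain
  have hsum2 : (k : ℝ) * (L + c * u') + l * (M + b * v')
      ≤ (a + b + c) * (k * u i + l * v i) := by
    have e1 : (k : ℝ) * (L + c * u') + k * ∑ m, s m * u m
        ≤ k * ((a + b + c + ∑ m, s m) * u i) := by
      have := mul_le_mul_of_nonneg_left h1 (by positivity : (0:ℝ) ≤ k)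
      linarith
    have e2 : (l : ℝ) * (M + b * v') + l * ∑ m, s m * v m
        ≤ l * ((a + b + c + ∑ m, s m) * v i) := by
      have := mul_le_mul_of_nonneg_left h2 (by positivity : (0:ℝ) ≤ l)
      linarith
    have e3 : (∑ m, s m) * (k * u i + l * v i)
        ≤ k * ∑ m, s m * u m + l * ∑ m, s m * v m := by
      rw [Finset.sum_mul, Finset.mul_sum, Finset.mul_sum, ← Finset.sum_add_distrib]
      refine Finset.sum_le_sum fun m _ => ?_
      have := mul_le_mul_of_nonneg_left (hmin m) (hs m)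
      linarith
    have e4 : (k : ℝ) * ((a + b + c + ∑ m, s m) * u i) + l * ((a + b + c + ∑ m, s m) * v i)
        = (a + b + c) * (k * u i + l * v i) + (∑ m, s m) * (k * u i + l * v i) := by ring
    linarith
  have h5 : C1 * (1 + Real.sqrt (Real.log N))
      ≤ C1 * (1 + Real.sqrt (Real.log 2 + (1 + (u i + v i) / ε) * t)) := by gcongr
  have h6 : (a + b + c) * (Real.log C + (ε * (k + l) + k * u i + l * v i))
      < (a + b + c) * Real.log N := by
    apply mul_lt_mul_of_pos_left hlogN2; linarith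
  have h7 : Real.log κ + Real.log N ≤ Real.log X'.card := by
    rw [← Real.log_mul (by positivity) (by positivity)]
    exact Real.log_le_log (by positivity) hκX
  have h8 : a * (Real.log κ + Real.log N) ≤ a * Real.log X'.card :=
    mul_le_mul_of_nonneg_left h7 ha.le
  have h9 : -(a * |Real.log κ|) ≤ a * Real.log κ := by
    have := mul_le_mul_of_nonneg_left (neg_abs_le (Real.log κ)) ha.le
    linarith
  have h10 : (a + b + c) * (Real.log C + (ε * (k + l) + k * u i + l * v i))
      = (a + b + c) * t + (a + b + c) * (k * u i + l * v i) := by rw [ht]; ring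
  have h11 : b * (Real.log 2 + Real.log C + (ε * (k + l) + l * v'))
      = b * Real.log 2 + b * t + l * (b * v') := by rw [ht]; ring
  have h12 : c * (Real.log 2 + Real.log C + (ε * (k + l) + k * u'))
      = c * Real.log 2 + c * t + k * (c * u') := by rw [ht]; ring
  rw [h10] at h6
  rw [h11, h12] at hmain
  nlinarith

/-- The one-sided contradiction for a positive proportion of vertices. -/
lemma two_contra {P : ℝ → ℝ → ℝ → ℝ → Prop} (hT : T1P P) (u v : ι → ℝ) (hu : ∀ i, 0 ≤ u i)
    (hv : ∀ i, 0 ≤ v i) (i : ι) (q η ε κ : ℝ) (hη : 0 < η) (hε : 0 < ε) (hκ : 0 < κ)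
    (hst : Real.exp (-u i) ≤ q ∨ StepCP P u v (u i) (v i) q) :
    ∃ C0 : ℝ, ∀ C : ℝ, C0 ≤ C → 1 ≤ C →
      ∀ (V : Type) [DecidableEq V] (G : SimpleGraph V) [DecidableRel G.Adj]
        (X X' : Finset V) (k l : ℕ), NoR G k X → NoB G l X →
        (∀ m, k * u i + l * v i ≤ k * u m + l * v m) →
        C * Real.exp (ε * (k + l) + k * u i + l * v i) < X.card →
        (X.card : ℝ) ≤ 2 * (C * Real.exp (ε * (k + l) + k * u i + l * v i)) →
        IHyp G u v C ε (k + l) → X' ⊆ X → κ * X.card ≤ X'.card →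
        (∀ x ∈ X', (q + η) * X.card ≤ ∑ y ∈ X, rI G x y) → False := by
  rcases hst with hst | hst
  · refine ⟨0, ?_⟩
    intro C _ hC1 V _ G _ X X' k l hR hB hmin hlt hle hI hXX hκX hdR
    have hCpos : 0 < C := lt_of_lt_of_le one_pos hC1
    have hk := NoR_pos hR
    have hXpos : (0 : ℝ) < X.card := lt_of_le_of_lt (by positivity) hlt
    have hX'pos : (0 : ℝ) < X'.card := lt_of_lt_of_le (by positivity) hκX
    have hX'ne : X'.Nonempty := by
      rw [← Finset.card_pos]; exact_mod_cast hX'pos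
    obtain ⟨x, hx⟩ := hX'ne
    have hdx := hdR x hx
    rw [sum_rI] at hdx
    have h1 := hI (k - 1) l (rN G x X) (by omega) (NoR_rN hR (hXX hx))
      (NoB_mono hB (rN_subset x X)) i
    have h2 : C * Real.exp (ε * (((k - 1 : ℕ) : ℝ) + l) + ((k - 1 : ℕ) : ℝ) * u i + l * v i)
        = C * Real.exp (ε * (k + l) + k * u i + l * v i) * (Real.exp (-ε) * Real.exp (-u i)) := by
      rw [mul_assoc, ← Real.exp_add, ← Real.exp_add]
      congr 2
      rw [Nat.cast_sub hk]; push_cast; ring
    rw [h2] at h1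
    have h3 : Real.exp (-ε) ≤ 1 := Real.exp_le_one_iff.2 (by linarith)
    have h4 : Real.exp (-ε) * Real.exp (-u i) ≤ q := by
      have := Real.exp_pos (-u i)
      nlinarith
    have h0 : 0 ≤ Real.exp (-ε) * Real.exp (-u i) := by positivity
    have h5 : ((rN G x X).card : ℝ) ≤ q * X.card := by
      calc ((rN G x X).card : ℝ) ≤ _ := h1
        _ ≤ (X.card : ℝ) * (Real.exp (-ε) * Real.exp (-u i)) := by gcongr
        _ ≤ (X.card : ℝ) * q := by gcongr
        _ = q * X.card := by ring
    have h6 : 0 < η * X.card := by positivity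
    nlinarith
  · obtain ⟨a, L, M, v', w, s, ha, ha1, hq, hq1, hL, hM, hcert, hw, hw1, hwL, hwv, hs, h1, h2⟩ := hst
    obtain ⟨C1, hC1, hT1⟩ := hT a q L M η ha ha1 hq hq1 hL hM hη hcert
    have hlog2 : 0 < Real.log 2 := Real.log_pos (by norm_num)
    obtain ⟨t0, ht0⟩ := thresh' (a := a) (C1 := C1) (K := 1 + (u i + v i) / ε)
      (D := Real.log 2 + a * |Real.log κ|) ha hC1
      (by have := hu i; have := hv i; positivity) (by positivity)
    refine ⟨Real.exp t0, ?_⟩
    intro C hC0 hC1' V _ G _ X X' k l hR hB hmin hlt hle hI hXX hκX hdR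
    have hCpos : 0 < C := lt_of_lt_of_le one_pos hC1'
    have hXpos : (0 : ℝ) < X.card := lt_of_le_of_lt (by positivity) hlt
    have hX'pos : (0 : ℝ) < X'.card := lt_of_lt_of_le (by positivity) hκX
    have hX'ne : X'.Nonempty := by
      rw [← Finset.card_pos]; exact_mod_cast hX'pos
    have hXne : X.Nonempty := by
      rw [← Finset.card_pos]; exact_mod_cast hXpos
    have hbook := book_bound (G := G) u v i hε hCpos hB hmin hle hI w hw hw1 hwL hwv
    have hU : X' ∪ X = X := Finset.union_eq_right.2 hXX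
    have hsum : (q + η) * X'.card * X.card ≤ ∑ x ∈ X', ∑ y ∈ X, ind G x y := by
      have e1 : ∑ _x ∈ X', (q + η) * (X.card : ℝ) ≤ ∑ x ∈ X', ∑ y ∈ X, ind G x y :=
        Finset.sum_le_sum fun x hx => hdR x hx
      rw [Finset.sum_const, nsmul_eq_mul] at e1
      linarith
    have hmain := hT1 V G X' X X.card k l (2 * C * Real.exp (ε * (k + l) + l * v'))
      hX'ne hXne (card_le_card hXX) le_rfl (by rwa [hU]) (NoB_mono hB hXX) hbook hsum
    set N : ℝ := (X.card : ℝ) with hN
    set t : ℝ := Real.log C + ε * (k + l) with ht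
    have hlogC : 0 ≤ Real.log C := Real.log_nonneg hC1'
    have h4 : 0 ≤ ε * ((k : ℝ) + l) := by positivity
    have ht0' : t0 ≤ t := by
      have h3 : t0 ≤ Real.log C := by
        rw [← Real.log_exp t0]
        exact Real.log_le_log (Real.exp_pos _) hC0
      linarith
    have htn : 0 ≤ t := by linarith
    have h3 := ht0 t ht0' htn
    have hlogN : Real.log N ≤ Real.log 2 + (1 + (u i + v i) / ε) * t :=
      log_upper (hu i) (hv i) hε hC1' hXpos hle
    have hsqrt : Real.sqrt (Real.log N)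
        ≤ Real.sqrt (Real.log 2 + (1 + (u i + v i) / ε) * t) := Real.sqrt_le_sqrt hlogN
    have hlogN2 : Real.log C + (ε * (k + l) + k * u i + l * v i) < Real.log N := by
      have e1 := Real.log_lt_log (by positivity) hlt
      rwa [Real.log_mul (by positivity) (by positivity), Real.log_exp] at e1
    have hlogE : Real.log (2 * C * Real.exp (ε * (k + l) + l * v'))
        = Real.log 2 + Real.log C + (ε * (k + l) + l * v') := by
      rw [Real.log_mul (by positivity) (by positivity), Real.log_mul (by norm_num)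
        (by positivity), Real.log_exp]
    rw [hlogE] at hmain
    have hsum2 : (k : ℝ) * L + l * (M + v') ≤ (1 + a) * (k * u i + l * v i) := by
      have e1 : (k : ℝ) * L + k * ∑ m, s m * u m ≤ k * ((1 + a + ∑ m, s m) * u i) := by
        have := mul_le_mul_of_nonneg_left h1 (by positivity : (0:ℝ) ≤ k)
        linarith
      have e2 : (l : ℝ) * (M + v') + l * ∑ m, s m * v m ≤ l * ((1 + a + ∑ m, s m) * v i) := by
        have := mul_le_mul_of_nonneg_left h2 (by positivity : (0:ℝ) ≤ l)
        linarith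
      have e3 : (∑ m, s m) * (k * u i + l * v i)
          ≤ k * ∑ m, s m * u m + l * ∑ m, s m * v m := by
        rw [Finset.sum_mul, Finset.mul_sum, Finset.mul_sum, ← Finset.sum_add_distrib]
        refine Finset.sum_le_sum fun m _ => ?_
        have := mul_le_mul_of_nonneg_left (hmin m) (hs m)
        linarith
      nlinarith
    have h5 : C1 * (1 + Real.sqrt (Real.log N))
        ≤ C1 * (1 + Real.sqrt (Real.log 2 + (1 + (u i + v i) / ε) * t)) := by gcongr
    have h6 : (1 + a) * (Real.log C + (ε * (k + l) + k * u i + l * v i))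
        < (1 + a) * Real.log N := by
      apply mul_lt_mul_of_pos_left hlogN2; linarith
    have h7 : Real.log κ + Real.log N ≤ Real.log X'.card := by
      rw [← Real.log_mul (by positivity) (by positivity)]
      exact Real.log_le_log (by positivity) hκX
    have h8 : a * (Real.log κ + Real.log N) ≤ a * Real.log X'.card :=
      mul_le_mul_of_nonneg_left h7 ha.le
    have h9 : -(a * |Real.log κ|) ≤ a * Real.log κ := by
      have := mul_le_mul_of_nonneg_left (neg_abs_le (Real.log κ)) ha.le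
      linarith
    have h10 : (1 + a) * (Real.log C + (ε * (k + l) + k * u i + l * v i))
        = (1 + a) * t + (1 + a) * (k * u i + l * v i) := by rw [ht]; ring
    rw [h10] at h6
    have h11 : Real.log 2 + Real.log C + (ε * (k + l) + l * v')
        = Real.log 2 + t + l * v' := by rw [ht]; ring
    rw [h11] at hmain
    nlinarith

end contra

end Pool.Agent.H98.RM
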